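import Pool.Agent.Q275.Alb.Oct

/-!
# The cubic norm structure of Hermitian octonion matrices
-/

set_option autoImplicit false

namespace Pool.Agent.Q275.Alb

open Pool.Agent.Q86.Alb

lemma h3_ext {x y : H3} (h0 : x.1 0 = y.1 0) (h1 : x.1 1 = y.1 1) (h2 : x.1 2 = y.1 2)
    (g0 : x.2 0 = y.2 0) (g1 : x.2 1 = y.2 1) (g2 : x.2 2 = y.2 2) : x = y := by
  apply Prod.ext
  · funext i
    fin_cases i
    · exact h0
    · exact h1
    · exact h2
  · funext i
    fin_cases i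
    · exact g0
    · exact g1
    · exact g2

/-- the linearised adjoint -/
noncomputable def cf (x y : H3) : H3 :=
  (![x.1 1 * y.1 2 + x.1 2 * y.1 1 - 2 * (x.2 0).dot (y.2 0),
     x.1 2 * y.1 0 + x.1 0 * y.1 2 - 2 * (x.2 1).dot (y.2 1),
     x.1 0 * y.1 1 + x.1 1 * y.1 0 - 2 * (x.2 2).dot (y.2 2)],
   ![star (x.2 1 * y.2 2) + star (y.2 1 * x.2 2) - x.1 0 • y.2 0 - y.1 0 • x.2 0,
     star (x.2 2 * y.2 0) + star (y.2 2 * x.2 0) - x.1 1 • y.2 1 - y.1 1 • x.2 1,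
     star (x.2 0 * y.2 1) + star (y.2 0 * x.2 1) - x.1 2 • y.2 2 - y.1 2 • x.2 2])

lemma cf_d0 (x y : H3) : (cf x y).1 0 = x.1 1 * y.1 2 + x.1 2 * y.1 1 - 2 * (x.2 0).dot (y.2 0) := rfl
lemma cf_d1 (x y : H3) : (cf x y).1 1 = x.1 2 * y.1 0 + x.1 0 * y.1 2 - 2 * (x.2 1).dot (y.2 1) := rfl
lemma cf_d2 (x y : H3) : (cf x y).1 2 = x.1 0 * y.1 1 + x.1 1 * y.1 0 - 2 * (x.2 2).dot (y.2 2) := rfl
lemma cf_o0 (x y : H3) : (cf x y).2 0 =
    star (x.2 1 * y.2 2) + star (y.2 1 * x.2 2) - x.1 0 • y.2 0 - y.1 0 • x.2 0 := rfl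
lemma cf_o1 (x y : H3) : (cf x y).2 1 =
    star (x.2 2 * y.2 0) + star (y.2 2 * x.2 0) - x.1 1 • y.2 1 - y.1 1 • x.2 1 := rfl
lemma cf_o2 (x y : H3) : (cf x y).2 2 =
    star (x.2 0 * y.2 1) + star (y.2 0 * x.2 1) - x.1 2 • y.2 2 - y.1 2 • x.2 2 := rfl

lemma add_d (x y : H3) (i : Fin 3) : (x + y).1 i = x.1 i + y.1 i := rfl
lemma add_o (x y : H3) (i : Fin 3) : (x + y).2 i = x.2 i + y.2 i := rfl
lemma smul_d (r : ℝ) (x : H3) (i : Fin 3) : (r • x).1 i = r * x.1 i := rfl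
lemma smul_o (r : ℝ) (x : H3) (i : Fin 3) : (r • x).2 i = r • x.2 i := rfl
lemma sub_d (x y : H3) (i : Fin 3) : (x - y).1 i = x.1 i - y.1 i := rfl
lemma sub_o (x y : H3) (i : Fin 3) : (x - y).2 i = x.2 i - y.2 i := rfl
lemma one_d (i : Fin 3) : H3.one.1 i = 1 := rfl
lemma one_o (i : Fin 3) : H3.one.2 i = 0 := rfl

lemma cf_comm (x y : H3) : cf x y = cf y x := by
  apply h3_ext
  · rw [cf_d0, cf_d0, Oct.dot_comm]; ring
  · rw [cf_d1, cf_d1, Oct.dot_comm]; ring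
  · rw [cf_d2, cf_d2, Oct.dot_comm]; ring
  · rw [cf_o0, cf_o0]; abel
  · rw [cf_o1, cf_o1]; abel
  · rw [cf_o2, cf_o2]; abel

lemma cf_add (x y z : H3) : cf (x + y) z = cf x z + cf y z := by
  apply h3_ext
  · rw [add_d, cf_d0, cf_d0, cf_d0, add_d, add_d, add_o, Oct.dot_add]; ring
  · rw [add_d, cf_d1, cf_d1, cf_d1, add_d, add_d, add_o, Oct.dot_add]; ring
  · rw [add_d, cf_d2, cf_d2, cf_d2, add_d, add_d, add_o, Oct.dot_add]; ring
  · rw [add_o, cf_o0, cf_o0, cf_o0, add_d, add_o, add_o, add_o, mul_add', add_mul', star_add',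
      star_add', add_smul, smul_add]; abel
  · rw [add_o, cf_o1, cf_o1, cf_o1, add_d, add_o, add_o, add_o, mul_add', add_mul', star_add',
      star_add', add_smul, smul_add]; abel
  · rw [add_o, cf_o2, cf_o2, cf_o2, add_d, add_o, add_o, add_o, mul_add', add_mul', star_add',
      star_add', add_smul, smul_add]; abel

lemma cf_smul (r : ℝ) (x z : H3) : cf (r • x) z = r • cf x z := by
  apply h3_ext
  · rw [smul_d, cf_d0, cf_d0, smul_d, smul_d, smul_o, Oct.dot_smul]; ring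
  · rw [smul_d, cf_d1, cf_d1, smul_d, smul_d, smul_o, Oct.dot_smul]; ring
  · rw [smul_d, cf_d2, cf_d2, smul_d, smul_d, smul_o, Oct.dot_smul]; ring
  · rw [smul_o, cf_o0, cf_o0, smul_d, smul_o, smul_o, smul_o, mul_smul', smul_mul', star_smul',
      star_smul', smul_sub, smul_sub, smul_add, mul_smul, smul_comm r (z.1 0)]
  · rw [smul_o, cf_o1, cf_o1, smul_d, smul_o, smul_o, smul_o, mul_smul', smul_mul', star_smul',
      star_smul', smul_sub, smul_sub, smul_add, mul_smul, smul_comm r (z.1 1)]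
  · rw [smul_o, cf_o2, cf_o2, smul_d, smul_o, smul_o, smul_o, mul_smul', smul_mul', star_smul',
      star_smul', smul_sub, smul_sub, smul_add, mul_smul, smul_comm r (z.1 2)]

/-- as a bilinear map -/
noncomputable def cl : H3 →ₗ[ℝ] H3 →ₗ[ℝ] H3 :=
  LinearMap.mk₂ ℝ cf cf_add cf_smul
    (fun x y z => by rw [cf_comm, cf_add, cf_comm y, cf_comm z])
    (fun r x y => by rw [cf_comm, cf_smul, cf_comm y])

lemma cl_apply (x y : H3) : cl x y = cf x y := rfl

lemma form_eq (x y : H3) : H3.form x y = x.1 0 * y.1 0 + x.1 1 * y.1 1 + x.1 2 * y.1 2 +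
    2 * ((x.2 0).dot (y.2 0) + (x.2 1).dot (y.2 1) + (x.2 2).dot (y.2 2)) := by
  rw [H3.form, Fin.sum_univ_three, Fin.sum_univ_three]

lemma sub_eq_add_smul (x y : Oct) : x - y = x + (-1 : ℝ) • y := by
  rw [neg_one_smul, sub_eq_add_neg]

lemma dot_sub (x y z : Oct) : (x - y).dot z = x.dot z - y.dot z := by
  rw [sub_eq_add_smul, Oct.dot_add, Oct.dot_smul]; ring

lemma dot_sub' (x y z : Oct) : x.dot (y - z) = x.dot y - x.dot z := by
  rw [sub_eq_add_smul, dot_add', dot_smul']; ring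

lemma cf_symm (x y z : H3) : H3.form (cf x y) z = H3.form x (cf y z) := by
  rw [form_eq, form_eq, cf_d0, cf_d1, cf_d2, cf_o0, cf_o1, cf_o2, cf_d0, cf_d1, cf_d2, cf_o0, cf_o1,
    cf_o2]
  simp only [dot_sub, dot_sub', Oct.dot_add, dot_add', Oct.dot_smul, dot_smul']
  rw [tri_cyc (x.2 1) (y.2 2) (z.2 0), tri_cyc (x.2 2) (y.2 0) (z.2 1),
    tri_cyc (x.2 0) (y.2 1) (z.2 2), ← tri_cyc (z.2 0) (y.2 1) (x.2 2),
    ← tri_cyc (z.2 1) (y.2 2) (x.2 0), ← tri_cyc (z.2 2) (y.2 0) (x.2 1),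
    Oct.dot_comm (x.2 0) (star _), Oct.dot_comm (x.2 1) (star _), Oct.dot_comm (x.2 2) (star _),
    Oct.dot_comm (x.2 0) (star _), Oct.dot_comm (x.2 1) (star _), Oct.dot_comm (x.2 2) (star _)]
  ring

/-- the quadratic adjoint -/
noncomputable def ad (x : H3) : H3 := (1 / 2 : ℝ) • cf x x

lemma ad_d0 (x : H3) : (ad x).1 0 = x.1 1 * x.1 2 - (x.2 0).dot (x.2 0) := by
  rw [ad, smul_d, cf_d0]; ring
lemma ad_d1 (x : H3) : (ad x).1 1 = x.1 2 * x.1 0 - (x.2 1).dot (x.2 1) := by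
  rw [ad, smul_d, cf_d1]; ring
lemma ad_d2 (x : H3) : (ad x).1 2 = x.1 0 * x.1 1 - (x.2 2).dot (x.2 2) := by
  rw [ad, smul_d, cf_d2]; ring

lemma half_o (a b : Oct) : (1 / 2 : ℝ) • (a + a - b - b) = a - b := by
  have h : a + a - b - b = (2 : ℝ) • (a - b) := by
    rw [two_smul]; abel
  rw [h, smul_smul]
  norm_num

lemma ad_o0 (x : H3) : (ad x).2 0 = star (x.2 1 * x.2 2) - x.1 0 • x.2 0 := by
  rw [ad, smul_o, cf_o0, half_o]
lemma ad_o1 (x : H3) : (ad x).2 1 = star (x.2 2 * x.2 0) - x.1 1 • x.2 1 := by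
  rw [ad, smul_o, cf_o1, half_o]
lemma ad_o2 (x : H3) : (ad x).2 2 = star (x.2 0 * x.2 1) - x.1 2 • x.2 2 := by
  rw [ad, smul_o, cf_o2, half_o]

/-- one of the diagonal entries of the double adjoint -/
lemma key_d (p q r : ℝ) (a b c : Oct) :
    (r * p - b.dot b) * (p * q - c.dot c) -
      (star (b * c) - p • a).dot (star (b * c) - p • a) =
    (p * q * r - p * a.dot a - q * b.dot b - r * c.dot c + 2 * (star (b * c)).dot a) * p := by
  rw [dot_sub, dot_sub', dot_sub', dot_smul', Oct.dot_smul, Oct.dot_smul, dot_smul', dot_star,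
    dot_mul, Oct.dot_comm a]
  ring

/-- one of the entries off the diagonal of the double adjoint -/
lemma key_o (p q r : ℝ) (a b c : Oct) :
    star ((star (c * a) - q • b) * (star (a * b) - r • c)) -
      (q * r - a.dot a) • (star (b * c) - p • a) =
    (p * q * r - p * a.dot a - q * b.dot b - r * c.dot c + 2 * (star (b * c)).dot a) • a := by
  have e1 : (star (c * a) - q • b) * (star (a * b) - r • c) =
      star (c * a) * star (a * b) + (-r) • (star (c * a) * c) + (-q) • (b * star (a * b)) +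
        (q * r) • (b * c) := by
    simp only [sub_eq_add_smul, mul_add', add_mul', smul_mul', mul_smul', smul_smul]
    module
  have e2 : star (star (c * a) * star (a * b)) = (a * b) * (c * a) := by
    rw [star_mul', star_star', star_star']
  have e3 : star (star (c * a) * c) = c.dot c • a := by
    rw [star_mul', star_star', star_mul_mul]
  have e4 : star (b * star (a * b)) = b.dot b • a := by
    rw [star_mul', star_star', mul_mul_star]
  rw [e1, star_add', star_add', star_add', star_smul', star_smul', star_smul', e2, e3, e4, moufang]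
  module

lemma form_ad (x : H3) : H3.form (ad x) x / 3 =
    x.1 0 * x.1 1 * x.1 2 - x.1 0 * (x.2 0).dot (x.2 0) - x.1 1 * (x.2 1).dot (x.2 1) -
      x.1 2 * (x.2 2).dot (x.2 2) + 2 * (star (x.2 1 * x.2 2)).dot (x.2 0) := by
  rw [form_eq, ad_d0, ad_d1, ad_d2, ad_o0, ad_o1, ad_o2, dot_sub, dot_sub, dot_sub, Oct.dot_smul,
    Oct.dot_smul, Oct.dot_smul, tri_cyc (x.2 2) (x.2 0) (x.2 1), tri_cyc (x.2 0) (x.2 1) (x.2 2)]
  ring

lemma ad_ad (x : H3) : ad (ad x) = (H3.form (ad x) x / 3) • x := by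
  rw [form_ad]
  apply h3_ext
  · rw [ad_d0, ad_d1, ad_d2, ad_o0, smul_d, key_d (x.1 0) (x.1 1) (x.1 2)]
  · rw [ad_d1, ad_d2, ad_d0, ad_o1, smul_d, key_d (x.1 1) (x.1 2) (x.1 0),
      tri_cyc (x.2 2) (x.2 0) (x.2 1), tri_cyc (x.2 0) (x.2 1) (x.2 2)]
    ring
  · rw [ad_d2, ad_d0, ad_d1, ad_o2, smul_d, key_d (x.1 2) (x.1 0) (x.1 1),
      tri_cyc (x.2 0) (x.2 1) (x.2 2)]
    ring
  · rw [ad_o0, ad_o1, ad_o2, ad_d0, smul_o, ad_o0, key_o (x.1 0) (x.1 1) (x.1 2)]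
  · rw [ad_o1, ad_o2, ad_o0, ad_d1, smul_o, ad_o1, key_o (x.1 1) (x.1 2) (x.1 0),
      tri_cyc (x.2 2) (x.2 0) (x.2 1), tri_cyc (x.2 0) (x.2 1) (x.2 2)]
    congr 1
    ring
  · rw [ad_o2, ad_o0, ad_o1, ad_d2, smul_o, ad_o2, key_o (x.1 2) (x.1 0) (x.1 1),
      tri_cyc (x.2 0) (x.2 1) (x.2 2)]
    congr 1
    ring

lemma form_one (x : H3) : H3.form H3.one x = H3.tr x := by
  rw [form_eq, one_d, one_d, one_d, one_o, one_o, one_o, H3.tr]
  have h : ∀ y : Oct, (0 : Oct).dot y = 0 := by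
    intro y
    have := Oct.dot_smul 0 0 y
    rw [zero_smul, zero_mul] at this
    exact this
  rw [h, h, h]
  ring

lemma zero_mul' (x : Oct) : (0 : Oct) * x = 0 := by
  have := smul_mul' 0 0 x
  rwa [zero_smul, zero_smul] at this

lemma mul_zero' (x : Oct) : x * (0 : Oct) = 0 := by
  have := mul_smul' 0 x 0
  rwa [zero_smul, zero_smul] at this

lemma star_zero' : star (0 : Oct) = 0 := by
  have := star_smul' 0 0
  rwa [zero_smul, zero_smul] at this

lemma zero_dot (y : Oct) : (0 : Oct).dot y = 0 := by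
  have := Oct.dot_smul 0 0 y
  rwa [zero_smul, zero_mul] at this

lemma cf_one (y : H3) : cf H3.one y = (H3.tr y) • H3.one - y := by
  apply h3_ext
  · rw [cf_d0, sub_d, smul_d, one_d, one_d, one_d, one_o, zero_dot, H3.tr]; ring
  · rw [cf_d1, sub_d, smul_d, one_d, one_d, one_d, one_o, zero_dot, H3.tr]; ring
  · rw [cf_d2, sub_d, smul_d, one_d, one_d, one_d, one_o, zero_dot, H3.tr]; ring
  · rw [cf_o0, sub_o, smul_o, one_o, one_o, one_o, one_d, zero_mul', mul_zero', star_zero',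
      smul_zero, smul_zero, one_smul]
    simp
  · rw [cf_o1, sub_o, smul_o, one_o, one_o, one_o, one_d, zero_mul', mul_zero', star_zero',
      smul_zero, smul_zero, one_smul]
    simp
  · rw [cf_o2, sub_o, smul_o, one_o, one_o, one_o, one_d, zero_mul', mul_zero', star_zero',
      smul_zero, smul_zero, one_smul]
    simp

end Pool.Agent.Q275.Alb
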