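import Pool.Agent.Q86.AlbCub

/-!
# Identities for octonions
-/

set_option autoImplicit false

namespace Pool.Agent.Q275.Alb

open Pool.Agent.Q86.Alb

lemma mul_fst (x y : Oct) : (x * y).1 = x.1 * y.1 - star y.2 * x.2 := rfl
lemma mul_snd (x y : Oct) : (x * y).2 = y.2 * x.1 + x.2 * star y.1 := rfl
lemma star_fst (x : Oct) : (star x).1 = star x.1 := rfl
lemma star_snd (x : Oct) : (star x).2 = -x.2 := rfl
lemma add_fst (x y : Oct) : (x + y).1 = x.1 + y.1 := rfl
lemma add_snd (x y : Oct) : (x + y).2 = x.2 + y.2 := rfl
lemma sub_fst (x y : Oct) : (x - y).1 = x.1 - y.1 := rfl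
lemma sub_snd (x y : Oct) : (x - y).2 = x.2 - y.2 := rfl
lemma neg_fst (x : Oct) : (-x).1 = -x.1 := rfl
lemma neg_snd (x : Oct) : (-x).2 = -x.2 := rfl
lemma smul_fst (r : ℝ) (x : Oct) : (r • x).1 = r • x.1 := rfl
lemma smul_snd (r : ℝ) (x : Oct) : (r • x).2 = r • x.2 := rfl
lemma zero_fst : (0 : Oct).1 = 0 := rfl
lemma zero_snd : (0 : Oct).2 = 0 := rfl
lemma ofReal_fst (r : ℝ) : (Oct.ofReal r).1 = (r : Quaternion ℝ) := rfl
lemma ofReal_snd (r : ℝ) : (Oct.ofReal r).2 = 0 := rfl

lemma oct_ext {x y : Oct} (h1 : x.1 = y.1) (h2 : x.2 = y.2) : x = y := Prod.ext h1 h2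

lemma mul_add' (x y z : Oct) : x * (y + z) = x * y + x * z := by
  apply oct_ext
  · simp only [mul_fst, add_fst, add_snd, star_add]
    noncomm_ring
  · simp only [mul_snd, add_fst, add_snd, star_add]
    noncomm_ring

lemma add_mul' (x y z : Oct) : (x + y) * z = x * z + y * z := by
  apply oct_ext
  · simp only [mul_fst, add_fst, add_snd]
    noncomm_ring
  · simp only [mul_snd, add_fst, add_snd]
    noncomm_ring

lemma smul_mul' (r : ℝ) (x y : Oct) : (r • x) * y = r • (x * y) := by
  apply oct_ext
  · simp only [mul_fst, smul_fst, smul_snd, smul_mul_assoc, mul_smul_comm, smul_sub]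
  · simp only [mul_snd, smul_fst, smul_snd, smul_mul_assoc, mul_smul_comm, smul_add]

lemma mul_smul' (r : ℝ) (x y : Oct) : x * (r • y) = r • (x * y) := by
  apply oct_ext
  · simp only [mul_fst, smul_fst, smul_snd, smul_mul_assoc, mul_smul_comm, smul_sub,
      Quaternion.star_smul]
  · simp only [mul_snd, smul_fst, smul_snd, smul_mul_assoc, mul_smul_comm, smul_add,
      Quaternion.star_smul]

lemma star_add' (x y : Oct) : star (x + y) = star x + star y := by
  apply oct_ext
  · simp only [star_fst, add_fst, star_add]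
  · simp only [star_snd, add_snd, neg_add]

lemma star_smul' (r : ℝ) (x : Oct) : star (r • x) = r • star x := by
  apply oct_ext
  · simp only [star_fst, smul_fst, Quaternion.star_smul]
  · simp only [star_snd, smul_snd, smul_neg]

lemma star_star' (x : Oct) : star (star x) = x := by
  apply oct_ext
  · simp only [star_fst, star_star]
  · simp only [star_snd, neg_neg]

lemma star_mul' (x y : Oct) : star (x * y) = star y * star x := by
  apply oct_ext
  · simp only [star_fst, mul_fst, star_snd, star_sub, star_mul, star_neg, star_star]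
    noncomm_ring
  · simp only [star_fst, mul_snd, star_snd, star_star]
    noncomm_ring

lemma dot_add' (x y z : Oct) : x.dot (y + z) = x.dot y + x.dot z := by
  rw [Oct.dot_comm, Oct.dot_add, Oct.dot_comm y, Oct.dot_comm z]

lemma dot_smul' (r : ℝ) (x y : Oct) : x.dot (r • y) = r * x.dot y := by
  rw [Oct.dot_comm, Oct.dot_smul, Oct.dot_comm y]

lemma dot_star (x y : Oct) : (star x).dot (star y) = x.dot y := by
  simp only [Oct.dot, star_fst, star_snd, Quaternion.re_star, Quaternion.imI_star,
    Quaternion.imJ_star, Quaternion.imK_star, Quaternion.re_neg, Quaternion.imI_neg,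
    Quaternion.imJ_neg, Quaternion.imK_neg]
  ring

lemma re_mul_star (x y : Oct) : (x * star y).re = x.dot y := by
  simp only [Oct.re, Oct.dot, mul_fst, star_fst, star_snd, Quaternion.re_sub, Quaternion.re_mul,
    Quaternion.re_star, Quaternion.imI_star, Quaternion.imJ_star, Quaternion.imK_star,
    Quaternion.re_neg, Quaternion.imI_neg, Quaternion.imJ_neg, Quaternion.imK_neg]
  ring

lemma re_star_mul (x y : Oct) : (star x * y).re = x.dot y := by
  simp only [Oct.re, Oct.dot, mul_fst, star_fst, star_snd, Quaternion.re_sub, Quaternion.re_mul,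
    Quaternion.re_star, Quaternion.imI_star, Quaternion.imJ_star, Quaternion.imK_star,
    Quaternion.re_neg, Quaternion.imI_neg, Quaternion.imJ_neg, Quaternion.imK_neg]
  ring

/-- the trilinear form is cyclic -/
lemma tri_cyc (a b c : Oct) : (star (a * b)).dot c = (star (b * c)).dot a := by
  simp only [Oct.dot, mul_fst, mul_snd, star_fst, star_snd, Quaternion.re_sub, Quaternion.imI_sub,
    Quaternion.imJ_sub, Quaternion.imK_sub, Quaternion.re_add, Quaternion.imI_add,
    Quaternion.imJ_add, Quaternion.imK_add, Quaternion.re_mul, Quaternion.imI_mul,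
    Quaternion.imJ_mul, Quaternion.imK_mul,
    Quaternion.re_star, Quaternion.imI_star, Quaternion.imJ_star, Quaternion.imK_star,
    Quaternion.re_neg, Quaternion.imI_neg, Quaternion.imJ_neg, Quaternion.imK_neg]
  ring

lemma dot_mul (a b : Oct) : (a * b).dot (a * b) = a.dot a * b.dot b := by
  simp only [Oct.dot, mul_fst, mul_snd, Quaternion.re_sub, Quaternion.imI_sub,
    Quaternion.imJ_sub, Quaternion.imK_sub, Quaternion.re_add, Quaternion.imI_add,
    Quaternion.imJ_add, Quaternion.imK_add, Quaternion.re_mul, Quaternion.imI_mul,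
    Quaternion.imJ_mul, Quaternion.imK_mul,
    Quaternion.re_star, Quaternion.imI_star, Quaternion.imJ_star, Quaternion.imK_star]
  ring

/-- left multiplication by the conjugate -/
lemma star_mul_mul (a b : Oct) : star a * (a * b) = a.dot a • b := by
  apply oct_ext
  · apply QuaternionAlgebra.ext
    all_goals
      simp only [Oct.dot, mul_fst, mul_snd, star_fst, star_snd, smul_fst, Quaternion.re_sub,
        Quaternion.imI_sub, Quaternion.imJ_sub, Quaternion.imK_sub, Quaternion.re_add,
        Quaternion.imI_add, Quaternion.imJ_add, Quaternion.imK_add, Quaternion.re_mul,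
        Quaternion.imI_mul, Quaternion.imJ_mul, Quaternion.imK_mul, Quaternion.re_smul,
        Quaternion.imI_smul, Quaternion.imJ_smul, Quaternion.imK_smul, smul_eq_mul,
        Quaternion.re_star, Quaternion.imI_star, Quaternion.imJ_star, Quaternion.imK_star,
        Quaternion.re_neg, Quaternion.imI_neg, Quaternion.imJ_neg, Quaternion.imK_neg]
      ring
  · apply QuaternionAlgebra.ext
    all_goals
      simp only [Oct.dot, mul_fst, mul_snd, star_fst, star_snd, smul_snd, Quaternion.re_sub,
        Quaternion.imI_sub, Quaternion.imJ_sub, Quaternion.imK_sub, Quaternion.re_add,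
        Quaternion.imI_add, Quaternion.imJ_add, Quaternion.imK_add, Quaternion.re_mul,
        Quaternion.imI_mul, Quaternion.imJ_mul, Quaternion.imK_mul, Quaternion.re_smul,
        Quaternion.imI_smul, Quaternion.imJ_smul, Quaternion.imK_smul, smul_eq_mul,
        Quaternion.re_star, Quaternion.imI_star, Quaternion.imJ_star, Quaternion.imK_star,
        Quaternion.re_neg, Quaternion.imI_neg, Quaternion.imJ_neg, Quaternion.imK_neg]
      ring

lemma mul_mul_star (a b : Oct) : (b * a) * star a = a.dot a • b := by
  have h := star_mul_mul (star a) (star b)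
  have h2 := congrArg star h
  rw [star_mul', star_mul', star_star', star_star', star_smul', star_star', dot_star] at h2
  exact h2

/-- the middle Moufang identity -/
lemma moufang (a b c : Oct) : (a * b) * (c * a) =
    (2 * (star (b * c)).dot a) • a - a.dot a • star (b * c) := by
  apply oct_ext
  · apply QuaternionAlgebra.ext
    all_goals
      simp only [Oct.dot, mul_fst, mul_snd, star_fst, star_snd, smul_fst, sub_fst,
        Quaternion.re_sub,
        Quaternion.imI_sub, Quaternion.imJ_sub, Quaternion.imK_sub, Quaternion.re_add,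
        Quaternion.imI_add, Quaternion.imJ_add, Quaternion.imK_add, Quaternion.re_mul,
        Quaternion.imI_mul, Quaternion.imJ_mul, Quaternion.imK_mul, Quaternion.re_smul,
        Quaternion.imI_smul, Quaternion.imJ_smul, Quaternion.imK_smul, smul_eq_mul,
        Quaternion.re_star, Quaternion.imI_star, Quaternion.imJ_star, Quaternion.imK_star,
        Quaternion.re_neg, Quaternion.imI_neg, Quaternion.imJ_neg, Quaternion.imK_neg]
      ring
  · apply QuaternionAlgebra.ext
    all_goals
      simp only [Oct.dot, mul_fst, mul_snd, star_fst, star_snd, smul_snd, sub_snd,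
        Quaternion.re_sub,
        Quaternion.imI_sub, Quaternion.imJ_sub, Quaternion.imK_sub, Quaternion.re_add,
        Quaternion.imI_add, Quaternion.imJ_add, Quaternion.imK_add, Quaternion.re_mul,
        Quaternion.imI_mul, Quaternion.imJ_mul, Quaternion.imK_mul, Quaternion.re_smul,
        Quaternion.imI_smul, Quaternion.imJ_smul, Quaternion.imK_smul, smul_eq_mul,
        Quaternion.re_star, Quaternion.imI_star, Quaternion.imJ_star, Quaternion.imK_star,
        Quaternion.re_neg, Quaternion.imI_neg, Quaternion.imJ_neg, Quaternion.imK_neg]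
      ring

lemma ofReal_mul (r : ℝ) (x : Oct) : Oct.ofReal r * x = r • x := by
  apply oct_ext
  · rw [mul_fst, ofReal_fst, ofReal_snd, mul_zero, sub_zero, smul_fst, Quaternion.coe_mul_eq_smul]
  · rw [mul_snd, ofReal_fst, ofReal_snd, zero_mul, add_zero, smul_snd, Quaternion.mul_coe_eq_smul]

lemma mul_ofReal (r : ℝ) (x : Oct) : x * Oct.ofReal r = r • x := by
  apply oct_ext
  · rw [mul_fst, ofReal_fst, ofReal_snd, star_zero, zero_mul, sub_zero, smul_fst,
      Quaternion.mul_coe_eq_smul]
  · rw [mul_snd, ofReal_fst, ofReal_snd, zero_mul, zero_add, smul_snd, Quaternion.star_coe,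
      Quaternion.mul_coe_eq_smul]

lemma re_add' (x y : Oct) : (x + y).re = x.re + y.re := rfl
lemma re_smul' (r : ℝ) (x : Oct) : (r • x).re = r * x.re := rfl
lemma re_ofReal (r : ℝ) : (Oct.ofReal r).re = r := rfl

end Pool.Agent.Q275.Alb
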